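import Pool.Agent.V8H14.MHA.Acy

/-!
# Geometry of the faces of a real arrangement: acyclicity of the sign vectors of convex sets
-/

set_option autoImplicit false

namespace Pool.Agent.V8H40.MHA

open Pool.Agent.V8H14.MHA

/-! ## Adding elements -/

/-- Adding finitely many elements, from low to high. -/
theorem add_low {Φ : Type} [PartialOrder Φ] (A : Set Φ) (hA : Acy A) (D : Finset Φ) :
    (∀ s ∈ D, s ∉ A) → (∀ s ∈ D, Acy {x | x ∈ A ∧ s < x}) → Acy (A ∪ (D : Set Φ)) := by
  classical
  induction D using Finset.strongInduction with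
  | H D ih =>
    intro h1 h2
    rcases D.eq_empty_or_nonempty with h0 | h0
    · subst h0
      simpa using hA
    · obtain ⟨s, hs⟩ := D.exists_maximal h0
      have hsD := hs.prop
      have e : A ∪ (D : Set Φ) = insert s (A ∪ ((D.erase s : Finset Φ) : Set Φ)) := by
        ext x
        simp only [Set.mem_union, Finset.mem_coe, Set.mem_insert_iff, Finset.mem_erase]
        constructor
        · rintro (h | h)
          · exact Or.inr (Or.inl h)
          · by_cases hx : x = s
            · exact Or.inl hx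
            · exact Or.inr (Or.inr ⟨hx, h⟩)
        · rintro (h | h | h)
          · rw [h]; exact Or.inr hsD
          · exact Or.inl h
          · exact Or.inr h.2
      rw [e]
      apply acy_insert
      · simp only [Set.mem_union, Finset.mem_coe, Finset.mem_erase]
        rintro (h | h)
        · exact h1 s hsD h
        · exact h.1 rfl
      · exact ih _ (Finset.erase_ssubset hsD) (fun t ht => h1 t (Finset.mem_of_mem_erase ht))
          (fun t ht => h2 t (Finset.mem_of_mem_erase ht))
      · have e2 : {x | x ∈ A ∪ ((D.erase s : Finset Φ) : Set Φ) ∧ s < x} = {x | x ∈ A ∧ s < x} := by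
          ext x
          simp only [Set.mem_ofPred_eq, Set.mem_union, Finset.mem_coe, Finset.mem_erase]
          constructor
          · rintro ⟨h | h, h'⟩
            · exact ⟨h, h'⟩
            · exact absurd (hs.le_of_ge h.2 h'.le) (not_le_of_gt h')
          · rintro ⟨h, h'⟩
            exact ⟨Or.inl h, h'⟩
        rw [e2]
        exact h2 s hsD

section

variable {E : Type} [AddCommGroup E] [Module ℝ E] {ι : Type} [Fintype ι] (f : ι → (E →ₗ[ℝ] ℝ))

instance : Finite (SV ι) := inferInstanceAs (Finite (ι → SignType))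

theorem comp_ne {ι : Type} {σ τ : SV ι} {i : ι} (h : σ i ≠ 0) : comp σ τ i = σ i := if_neg h

theorem comp_eq {ι : Type} {σ τ : SV ι} {i : ι} (h : σ i = 0) : comp σ τ i = τ i := if_pos h

/-! ## Perturbation -/

theorem pert (v p : E) : ∃ δ : ℝ, 0 < δ ∧ δ < 1 ∧
    sgv f ((1 - δ) • v + δ • p) = comp (sgv f v) (sgv f p) := by
  have h1 : ∀ᶠ δ in nhdsWithin (0 : ℝ) (Set.Ioi 0), ∀ j,
      sgv f ((1 - δ) • v + δ • p) j = comp (sgv f v) (sgv f p) j := by
    rw [Filter.eventually_all]
    intro j
    by_cases h0 : f j v = 0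
    · filter_upwards [self_mem_nhdsWithin] with δ hδ
      have hδ' : (0 : ℝ) < δ := hδ
      simp only [sgv, comp, map_add, map_smul, h0, smul_eq_mul, mul_zero, zero_add, sign_zero,
        if_true]
      rw [sign_mul, sign_pos hδ', one_mul]
    · have hc : Continuous fun δ : ℝ => f j ((1 - δ) • v + δ • p) := by
        simp only [map_add, map_smul, smul_eq_mul]
        fun_prop
      have hne : sgv f v j ≠ 0 := fun h => h0 (sign_eq_zero_iff.1 h)
      have hz : f j ((1 - (0 : ℝ)) • v + (0 : ℝ) • p) = f j v := by simp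
      rcases lt_or_gt_of_ne h0 with hlt | hgt
      · have := (hc.tendsto 0).eventually_lt_const (u := 0) (by simpa using hlt)
        filter_upwards [this.filter_mono nhdsWithin_le_nhds] with δ hδ
        rw [comp_ne hne]
        exact (sign_neg hδ).trans (sign_neg hlt).symm
      · have := (hc.tendsto 0).eventually_const_lt (u := 0) (by simpa using hgt)
        filter_upwards [this.filter_mono nhdsWithin_le_nhds] with δ hδ
        rw [comp_ne hne]
        exact (sign_pos hδ).trans (sign_pos hgt).symm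
  have h2 : ∀ᶠ δ in nhdsWithin (0 : ℝ) (Set.Ioi 0), 0 < δ := self_mem_nhdsWithin
  have h3 : ∀ᶠ δ in nhdsWithin (0 : ℝ) (Set.Ioi 0), δ < 1 :=
    Filter.Eventually.filter_mono nhdsWithin_le_nhds (gt_mem_nhds one_pos)
  obtain ⟨δ, h⟩ := (h1.and (h2.and h3)).exists
  exact ⟨δ, h.2.1, h.2.2, funext h.1⟩

theorem comp_mem {σ τ : SV ι} (h1 : σ ∈ Faces f) (h2 : τ ∈ Faces f) : comp σ τ ∈ Faces f := by
  obtain ⟨v, rfl⟩ := h1
  obtain ⟨p, rfl⟩ := h2
  obtain ⟨δ, -, -, h⟩ := pert f v p
  exact ⟨_, h⟩

omit [Fintype ι] in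
theorem opp_mem {σ : SV ι} (h1 : σ ∈ Faces f) : opp σ ∈ Faces f := by
  obtain ⟨v, rfl⟩ := h1
  refine ⟨-v, ?_⟩
  funext i
  simp only [sgv, opp, map_neg]
  exact Left.sign_neg _

/-! ## Convex sets of points -/

omit [Fintype ι] in
theorem convex_pos (g : E →ₗ[ℝ] ℝ) : Convex ℝ {v | 0 < g v} := by
  intro u hu v hv a b ha hb hab
  simp only [Set.mem_ofPred_eq, map_add, map_smul, smul_eq_mul] at *
  rcases ha.eq_or_lt with h | h
  · rw [← h] at hab ⊢
    have : b = 1 := by linarith
    subst this
    simpa using hv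
  · have := mul_pos h hu
    have := mul_nonneg hb hv.le
    linarith

omit [Fintype ι] in
theorem convex_nonneg (g : E →ₗ[ℝ] ℝ) : Convex ℝ {v | 0 ≤ g v} := by
  intro u hu v hv a b ha hb hab
  simp only [Set.mem_ofPred_eq, map_add, map_smul, smul_eq_mul] at *
  have := mul_nonneg ha hu
  have := mul_nonneg hb hv
  linarith

omit [Fintype ι] in
theorem convex_zero (g : E →ₗ[ℝ] ℝ) : Convex ℝ {v | g v = 0} := by
  intro u hu v hv a b ha hb hab
  simp only [Set.mem_ofPred_eq, map_add, map_smul, smul_eq_mul] at *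
  rw [hu, hv]; simp

omit [Fintype ι] in
theorem convex_eq (i : ι) (a : SignType) : Convex ℝ {v | sgv f v i = a} := by
  rcases a with _ | _ | _
  · have : {v | sgv f v i = SignType.zero} = {v | f i v = 0} := by
      ext v
      exact sign_eq_zero_iff
    rw [this]; exact convex_zero _
  · have : {v | sgv f v i = SignType.neg} = {v | 0 < (-f i) v} := by
      ext v
      simp only [Set.mem_ofPred_eq, LinearMap.neg_apply, Left.neg_pos_iff]
      exact sign_eq_neg_one_iff
    rw [this]; exact convex_pos _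
  · have : {v | sgv f v i = SignType.pos} = {v | 0 < f i v} := by
      ext v
      exact sign_eq_one_iff
    rw [this]; exact convex_pos _

omit [Fintype ι] in
theorem convex_zero_or (i : ι) (a : SignType) : Convex ℝ {v | sgv f v i = 0 ∨ sgv f v i = a} := by
  rcases a with _ | _ | _
  · have : {v | sgv f v i = 0 ∨ sgv f v i = SignType.zero} = {v | f i v = 0} := by
      ext v
      simp only [Set.mem_ofPred_eq]
      constructor
      · rintro (h | h)
        · exact sign_eq_zero_iff.1 h
        · exact sign_eq_zero_iff.1 h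
      · intro h
        exact Or.inl (sign_eq_zero_iff.2 h)
    rw [this]; exact convex_zero _
  · have : {v | sgv f v i = 0 ∨ sgv f v i = SignType.neg} = {v | 0 ≤ (-f i) v} := by
      ext v
      simp only [Set.mem_ofPred_eq, LinearMap.neg_apply, Left.nonneg_neg_iff]
      constructor
      · rintro (h | h)
        · exact (sign_eq_zero_iff.1 h).le
        · exact (sign_eq_neg_one_iff.1 h).le
      · intro h
        rcases h.eq_or_lt with h | h
        · exact Or.inl (sign_eq_zero_iff.2 h)
        · exact Or.inr (sign_eq_neg_one_iff.2 h)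
    rw [this]; exact convex_nonneg _
  · have : {v | sgv f v i = 0 ∨ sgv f v i = SignType.pos} = {v | 0 ≤ f i v} := by
      ext v
      simp only [Set.mem_ofPred_eq]
      constructor
      · rintro (h | h)
        · exact (sign_eq_zero_iff.1 h).ge
        · exact (sign_eq_one_iff.1 h).le
      · intro h
        rcases h.eq_or_lt with h | h
        · exact Or.inl (sign_eq_zero_iff.2 h.symm)
        · exact Or.inr (sign_eq_one_iff.2 h)
    rw [this]; exact convex_nonneg _

omit [Fintype ι] in
theorem convex_ge (s : SV ι) : Convex ℝ {v | s ≤ sgv f v} := by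
  have : {v | s ≤ sgv f v} = ⋂ i, {v : E | s i = 0 ∨ sgv f v i = s i} := by
    ext v
    simp only [Set.mem_ofPred_eq, Set.mem_iInter, SV.le_def]
    constructor
    · intro h i
      rcases h i with h | h
      · exact Or.inl h
      · exact Or.inr h.symm
    · intro h i
      rcases h i with h | h
      · exact Or.inl h
      · exact Or.inr h.symm
  rw [this]
  apply convex_iInter
  intro i
  by_cases h : s i = 0
  · have : {v : E | s i = 0 ∨ sgv f v i = s i} = Set.univ := by
      ext v; simp [h]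
    rw [this]; exact convex_univ
  · have : {v : E | s i = 0 ∨ sgv f v i = s i} = {v | sgv f v i = s i} := by
      ext v; simp [h]
    rw [this]; exact convex_eq f i _

/-! ## The sign vectors of a convex set -/

/-- The forms whose sign is not constant on `Q`. -/
def nc (Q : Set E) : Set ι := {i | ∃ u ∈ Q, ∃ v ∈ Q, sgv f u i ≠ sgv f v i}

theorem nc_lt {Q Q' : Set E} (h : Q' ⊆ Q) {i : ι} (hi : i ∈ nc f Q) (hi' : i ∉ nc f Q') :
    (nc f Q').ncard < (nc f Q).ncard := by
  apply Set.ncard_lt_ncard _ (Set.toFinite _)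
  refine ⟨?_, fun hh => hi' (hh hi)⟩
  rintro j ⟨u, hu, v, hv, hj⟩
  exact ⟨u, h hu, v, h hv, hj⟩

omit [Fintype ι] in
theorem exists_zero {Q : Set E} (hQ : Convex ℝ Q) {i : ι} (hi : i ∈ nc f Q) :
    ∃ q ∈ Q, f i q = 0 := by
  obtain ⟨u, hu, v, hv, h⟩ := hi
  have key : ∀ u ∈ Q, ∀ v ∈ Q, 0 < f i u → f i v < 0 → ∃ q ∈ Q, f i q = 0 := by
    intro u hu v hv h1 h2
    have hd : 0 < f i u - f i v := by linarith
    refine ⟨(-(f i v) / (f i u - f i v)) • u + (f i u / (f i u - f i v)) • v,
      hQ hu hv (div_nonneg (by linarith) hd.le) (div_nonneg h1.le hd.le) ?_, ?_⟩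
    · field_simp
      ring
    · simp only [map_add, map_smul, smul_eq_mul]
      field_simp
      ring
  rcases lt_trichotomy (f i u) 0 with h1 | h1 | h1
  · rcases lt_trichotomy (f i v) 0 with h2 | h2 | h2
    · exfalso; apply h
      simp only [sgv]
      rw [sign_neg h1, sign_neg h2]
    · exact ⟨v, hv, h2⟩
    · exact key v hv u hu h2 h1
  · exact ⟨u, hu, h1⟩
  · rcases lt_trichotomy (f i v) 0 with h2 | h2 | h2
    · exact key u hu v hv h1 h2
    · exact ⟨v, hv, h2⟩
    · exfalso; apply h
      simp only [sgv]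
      rw [sign_pos h1, sign_pos h2]

/-- One half of a convex set. -/
theorem half (N : ℕ) (IH : ∀ Q : Set E, Convex ℝ Q → Q.Nonempty → (nc f Q).ncard < N →
    Acy (sgv f '' Q)) (Q : Set E) (hQ : Convex ℝ Q) (hN : (nc f Q).ncard = N) (i : ι)
    (hi : i ∈ nc f Q) (g : E →ₗ[ℝ] ℝ) (hg : g = f i ∨ g = -f i) :
    Acy (sgv f '' (Q ∩ {v | 0 ≤ g v})) := by
  classical
  have g0 : ∀ v, g v = 0 ↔ f i v = 0 := by
    intro v
    rcases hg with h | h <;> rw [h] <;> simp
  have gpos : ∀ u v, 0 < g u → 0 < g v → sgv f u i = sgv f v i := by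
    intro u v hu hv
    simp only [sgv]
    rcases hg with h | h
    · rw [h] at hu hv
      rw [sign_pos hu, sign_pos hv]
    · rw [h] at hu hv
      simp only [LinearMap.neg_apply, Left.neg_pos_iff] at hu hv
      rw [sign_neg hu, sign_neg hv]
  have hz : Acy (sgv f '' (Q ∩ {v | g v = 0})) := by
    apply IH _ (hQ.inter (convex_zero g))
    · obtain ⟨q, hq, h0⟩ := exists_zero f hQ hi
      exact ⟨q, hq, (g0 q).2 h0⟩
    · rw [← hN]
      apply nc_lt f Set.inter_subset_left hi
      rintro ⟨u, hu, v, hv, h⟩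
      apply h
      simp only [sgv]
      rw [(g0 u).1 hu.2, (g0 v).1 hv.2]
  have hsplit : sgv f '' (Q ∩ {v | 0 ≤ g v}) =
      (sgv f '' (Q ∩ {v | 0 < g v})) ∪ (sgv f '' (Q ∩ {v | g v = 0})) := by
    rw [← Set.image_union, ← Set.inter_union_distrib_left]
    congr 1
    congr 1
    ext v
    simp only [Set.mem_ofPred_eq, Set.mem_union]
    constructor
    · intro h
      rcases h.eq_or_lt with h | h
      · exact Or.inr h.symm
      · exact Or.inl h
    · rintro (h | h)
      · exact h.le
      · exact h.ge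
  rw [hsplit]
  rcases (Q ∩ {v | 0 < g v}).eq_empty_or_nonempty with he | ⟨p, hpQ, hp⟩
  · rw [he]
    simpa using hz
  · have hA : Acy (sgv f '' (Q ∩ {v | 0 < g v})) := by
      apply IH _ (hQ.inter (convex_pos g)) ⟨p, hpQ, hp⟩
      rw [← hN]
      apply nc_lt f Set.inter_subset_left hi
      rintro ⟨u, hu, v, hv, h⟩
      exact h (gpos u v hu.2 hv.2)
    have := add_low _ hA (Set.toFinite (sgv f '' (Q ∩ {v | g v = 0}))).toFinset ?_ ?_
    · simpa using this
    · intro s hs
      rw [Set.Finite.mem_toFinset] at hs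
      obtain ⟨v, ⟨-, hv⟩, rfl⟩ := hs
      rintro ⟨u, ⟨-, hu⟩, h⟩
      have h1 : sgv f v i = 0 := by
        simp only [sgv]
        rw [(g0 v).1 hv, sign_zero]
      have h2 : sgv f u i = 0 := by rw [h]; exact h1
      have h3 : f i u = 0 := sign_eq_zero_iff.1 h2
      have h4 : g u = 0 := (g0 u).2 h3
      have h5 : 0 < g u := hu
      rw [h4] at h5
      exact lt_irrefl _ h5
    · intro s hs
      rw [Set.Finite.mem_toFinset] at hs
      obtain ⟨v, ⟨hvQ, hv⟩, rfl⟩ := hs
      have e : {x | x ∈ sgv f '' (Q ∩ {v | 0 < g v}) ∧ sgv f v < x} =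
          sgv f '' (Q ∩ ({u | 0 < g u} ∩ {u | sgv f v ≤ sgv f u})) := by
        ext x
        constructor
        · rintro ⟨⟨u, ⟨h1, h2⟩, rfl⟩, h3⟩
          exact ⟨u, ⟨h1, h2, h3.le⟩, rfl⟩
        · rintro ⟨u, ⟨h1, h2, h3⟩, rfl⟩
          refine ⟨⟨u, ⟨h1, h2⟩, rfl⟩, lt_of_le_of_ne h3 ?_⟩
          intro h
          have h1 : sgv f v i = 0 := by
            simp only [sgv]
            rw [(g0 v).1 hv, sign_zero]
          have h2' : sgv f u i = 0 := by rw [← h]; exact h1
          have h3 : f i u = 0 := sign_eq_zero_iff.1 h2'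
          have h4 : g u = 0 := (g0 u).2 h3
          have h5 : 0 < g u := h2
          rw [h4] at h5
          exact lt_irrefl _ h5
      rw [e]
      apply IH _ (hQ.inter ((convex_pos g).inter (convex_ge f _)))
      · obtain ⟨δ, h0, h1, h2⟩ := pert f v p
        refine ⟨(1 - δ) • v + δ • p, hQ hvQ hpQ (by linarith) h0.le (by ring), ?_, ?_⟩
        · have hv' : g v = 0 := hv
          have hp' : 0 < g p := hp
          simp only [Set.mem_ofPred_eq, map_add, map_smul, smul_eq_mul, hv', mul_zero, zero_add]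
          exact mul_pos h0 hp'
        · simp only [Set.mem_ofPred_eq]
          rw [h2]
          intro j
          by_cases hj : sgv f v j = 0
          · exact Or.inl hj
          · right
            simp only [comp, if_neg hj]
      · rw [← hN]
        apply nc_lt f Set.inter_subset_left hi
        rintro ⟨u, hu, v, hv, h⟩
        exact h (gpos u v hu.2.1 hv.2.1)

/-- B1 -/
theorem acy_convex (Q : Set E) (hQ : Convex ℝ Q) (hne : Q.Nonempty) : Acy (sgv f '' Q) := by
  have key : ∀ N : ℕ, ∀ Q : Set E, Convex ℝ Q → Q.Nonempty → (nc f Q).ncard = N →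
      Acy (sgv f '' Q) := by
    intro N
    induction N using Nat.strong_induction_on with
    | _ N ih =>
      intro Q hQ hne hN
      have IH : ∀ Q : Set E, Convex ℝ Q → Q.Nonempty → (nc f Q).ncard < N →
          Acy (sgv f '' Q) := fun Q h1 h2 h3 => ih _ h3 Q h1 h2 rfl
      rcases (nc f Q).eq_empty_or_nonempty with h0 | ⟨i, hi⟩
      · obtain ⟨q, hq⟩ := hne
        have : sgv f '' Q = {sgv f q} := by
          ext x
          constructor
          · rintro ⟨u, hu, rfl⟩
            rw [Set.mem_singleton_iff]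
            funext i
            by_contra h
            have : i ∈ nc f Q := ⟨u, hu, q, hq, h⟩
            rw [h0] at this
            exact this
          · intro h
            rw [Set.mem_singleton_iff] at h
            rw [h]
            exact ⟨q, hq, rfl⟩
        rw [this]
        exact acy_singleton _
      · have a1 := half f N IH Q hQ hN i hi (f i) (Or.inl rfl)
        have a2 := half f N IH Q hQ hN i hi (-f i) (Or.inr rfl)
        have a0 : Acy (sgv f '' (Q ∩ {v | f i v = 0})) := by
          apply IH _ (hQ.inter (convex_zero _))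
          · obtain ⟨q, hq, h0⟩ := exists_zero f hQ hi
            exact ⟨q, hq, h0⟩
          · rw [← hN]
            apply nc_lt f Set.inter_subset_left hi
            rintro ⟨u, hu, v, hv, h⟩
            apply h
            have hu' : f i u = 0 := hu.2
            have hv' : f i v = 0 := hv.2
            simp only [sgv]
            rw [hu', hv']
        have e : sgv f '' Q = sgv f '' (Q ∩ {v | 0 ≤ f i v}) ∪ sgv f '' (Q ∩ {v | 0 ≤ (-f i) v}) := by
          rw [← Set.image_union, ← Set.inter_union_distrib_left]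
          congr 1
          ext v
          simp only [Set.mem_inter_iff, Set.mem_union, Set.mem_ofPred_eq, LinearMap.neg_apply,
            Left.nonneg_neg_iff]
          exact ⟨fun h => ⟨h, le_total _ _⟩, fun h => h.1⟩
        have m1 : ∀ x, x ∈ sgv f '' (Q ∩ {v | 0 ≤ f i v}) → 0 ≤ x i := by
          rintro x ⟨v, ⟨-, h⟩, rfl⟩
          exact sign_nonneg_iff.2 h
        have m1' : ∀ x, x ∈ sgv f '' Q → 0 ≤ x i → x ∈ sgv f '' (Q ∩ {v | 0 ≤ f i v}) := by
          rintro x ⟨v, hv, rfl⟩ h
          exact ⟨v, ⟨hv, sign_nonneg_iff.1 h⟩, rfl⟩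
        have m2 : ∀ x, x ∈ sgv f '' (Q ∩ {v | 0 ≤ (-f i) v}) → x i ≤ 0 := by
          rintro x ⟨v, ⟨-, h⟩, rfl⟩
          simp only [Set.mem_ofPred_eq, LinearMap.neg_apply, Left.nonneg_neg_iff] at h
          exact sign_nonpos_iff.2 h
        have m2' : ∀ x, x ∈ sgv f '' Q → x i ≤ 0 → x ∈ sgv f '' (Q ∩ {v | 0 ≤ (-f i) v}) := by
          rintro x ⟨v, hv, rfl⟩ h
          refine ⟨v, ⟨hv, ?_⟩, rfl⟩
          simp only [Set.mem_ofPred_eq, LinearMap.neg_apply, Left.nonneg_neg_iff]
          exact sign_nonpos_iff.1 h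
        rw [e]
        apply acy_union _ _ a1 a2
        · have e0 : sgv f '' (Q ∩ {v | 0 ≤ f i v}) ∩ sgv f '' (Q ∩ {v | 0 ≤ (-f i) v}) =
              sgv f '' (Q ∩ {v | f i v = 0}) := by
            ext x
            constructor
            · rintro ⟨h1, h2⟩
              have h3 : x i = 0 := le_antisymm (m2 x h2) (m1 x h1)
              obtain ⟨v, ⟨hv, -⟩, rfl⟩ := h1
              exact ⟨v, ⟨hv, sign_eq_zero_iff.1 h3⟩, rfl⟩
            · rintro ⟨v, ⟨hv, h⟩, rfl⟩
              have h' : f i v = 0 := h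
              refine ⟨⟨v, ⟨hv, h'.ge⟩, rfl⟩, ⟨v, ⟨hv, ?_⟩, rfl⟩⟩
              simp only [Set.mem_ofPred_eq, LinearMap.neg_apply, Left.nonneg_neg_iff]
              exact h'.le
          rw [e0]
          exact a0
        · intro x hx y hy hyx
          apply m1' y
          · obtain ⟨v, ⟨hv, -⟩, rfl⟩ := hy
            exact ⟨v, hv, rfl⟩
          · rcases hyx i with h | h
            · exact h.ge
            · rw [h]; exact m1 x hx
        · intro x hx y hy hyx
          apply m2' y
          · obtain ⟨v, ⟨hv, -⟩, rfl⟩ := hy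
            exact ⟨v, hv, rfl⟩
          · rcases hyx i with h | h
            · exact h.le
            · rw [h]; exact m2 x hx
  exact key _ Q hQ hne rfl

/-! ## B2, B3, B4 -/

/-- A part of the sign vectors of a convex set. -/
theorem acy_part (C : Set E) (hC : Convex ℝ C) (y : SV ι) (T : Finset ι)
    (h : ∃ v ∈ C, ∀ i ∈ T, sgv f v i = 0 ∨ sgv f v i = y i) :
    Acy {G | G ∈ sgv f '' C ∧ ∀ i ∈ T, G i = 0 ∨ G i = y i} := by
  have e : {G | G ∈ sgv f '' C ∧ ∀ i ∈ T, G i = 0 ∨ G i = y i} =
      sgv f '' (C ∩ ⋂ i ∈ T, {v | sgv f v i = 0 ∨ sgv f v i = y i}) := by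
    ext G
    constructor
    · rintro ⟨⟨v, hv, rfl⟩, h⟩
      refine ⟨v, ⟨hv, ?_⟩, rfl⟩
      simp only [Set.mem_iInter]
      exact h
    · rintro ⟨v, ⟨hv, h⟩, rfl⟩
      simp only [Set.mem_iInter] at h
      exact ⟨⟨v, hv, rfl⟩, h⟩
  rw [e]
  apply acy_convex
  · apply hC.inter
    apply convex_iInter₂
    intro i _
    exact convex_zero_or f i _
  · obtain ⟨v, hv, h⟩ := h
    refine ⟨v, hv, ?_⟩
    simp only [Set.mem_iInter]
    exact h

theorem acy_cover (C : Set E) (hC : Convex ℝ C) (y : SV ι) (hy : y ∈ sgv f '' C)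
    (T : Finset ι) (hT : T.Nonempty) : ∀ T0 : Finset ι,
    Acy {G | G ∈ sgv f '' C ∧ (∀ i ∈ T0, G i = 0 ∨ G i = y i) ∧ ∃ i ∈ T, G i = 0 ∨ G i = y i} := by
  classical
  obtain ⟨v, hv, hvy⟩ := hy
  have hpart : ∀ T0 : Finset ι, Acy {G | G ∈ sgv f '' C ∧ ∀ i ∈ T0, G i = 0 ∨ G i = y i} := by
    intro T0
    apply acy_part f C hC
    refine ⟨v, hv, fun i _ => Or.inr ?_⟩
    rw [hvy]
  induction hT using Finset.Nonempty.cons_induction with
  | singleton a =>
    intro T0
    have e : {G | G ∈ sgv f '' C ∧ (∀ i ∈ T0, G i = 0 ∨ G i = y i) ∧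
        ∃ i ∈ ({a} : Finset ι), G i = 0 ∨ G i = y i} =
        {G | G ∈ sgv f '' C ∧ ∀ i ∈ insert a T0, G i = 0 ∨ G i = y i} := by
      ext G
      simp only [Set.mem_ofPred_eq, Finset.mem_singleton, exists_eq_left, Finset.mem_insert,
        forall_eq_or_imp]
      tauto
    rw [e]
    exact hpart _
  | cons a s h hs ih =>
    intro T0
    have e : {G | G ∈ sgv f '' C ∧ (∀ i ∈ T0, G i = 0 ∨ G i = y i) ∧
        ∃ i ∈ Finset.cons a s h, G i = 0 ∨ G i = y i} =
        {G | G ∈ sgv f '' C ∧ ∀ i ∈ insert a T0, G i = 0 ∨ G i = y i} ∪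
        {G | G ∈ sgv f '' C ∧ (∀ i ∈ T0, G i = 0 ∨ G i = y i) ∧
          ∃ i ∈ s, G i = 0 ∨ G i = y i} := by
      ext G
      simp only [Set.mem_ofPred_eq, Finset.mem_cons, Finset.mem_insert, Set.mem_union,
        forall_eq_or_imp, exists_eq_or_imp]
      constructor
      · rintro ⟨h1, h2, h3 | h3⟩
        · exact Or.inl ⟨h1, h3, h2⟩
        · exact Or.inr ⟨h1, h2, h3⟩
      · rintro (⟨h1, h2, h3⟩ | ⟨h1, h2, h3⟩)
        · exact ⟨h1, h3, Or.inl h2⟩
        · exact ⟨h1, h2, Or.inr h3⟩
    rw [e]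
    apply acy_union
    · intro x hx z hz hzx
      refine ⟨hz.1, ?_⟩
      intro i hi
      rcases Finset.mem_insert.1 hi with rfl | hi
      · rcases hzx i with h | h
        · exact Or.inl h
        · rw [h]; exact hx.2 i (Finset.mem_insert_self _ _)
      · exact hz.2.1 i hi
    · intro x hx z hz hzx
      refine ⟨hz.1, fun i hi => hz.2 i (Finset.mem_insert_of_mem hi), ?_⟩
      obtain ⟨i, hi, h⟩ := hx.2.2
      refine ⟨i, hi, ?_⟩
      rcases hzx i with h' | h'
      · exact Or.inl h'
      · rw [h']; exact h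
    · exact hpart _
    · exact ih T0
    · have e2 : {G | G ∈ sgv f '' C ∧ ∀ i ∈ insert a T0, G i = 0 ∨ G i = y i} ∩
          {G | G ∈ sgv f '' C ∧ (∀ i ∈ T0, G i = 0 ∨ G i = y i) ∧
            ∃ i ∈ s, G i = 0 ∨ G i = y i} =
          {G | G ∈ sgv f '' C ∧ (∀ i ∈ insert a T0, G i = 0 ∨ G i = y i) ∧
            ∃ i ∈ s, G i = 0 ∨ G i = y i} := by
        ext G
        simp only [Set.mem_ofPred_eq, Finset.mem_insert, Set.mem_inter_iff, forall_eq_or_imp]
        constructor
        · rintro ⟨⟨h1, h2, h3⟩, -, -, h4⟩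
          exact ⟨h1, ⟨h2, h3⟩, h4⟩
        · rintro ⟨h1, ⟨h2, h3⟩, h4⟩
          exact ⟨⟨h1, h2, h3⟩, h1, h3, h4⟩
      rw [e2]
      exact ih (insert a T0)

/-- B2 -/
theorem acy_below (y w : SV ι) (hy : y ∈ Faces f) (hw : w ∈ Faces f) (hz : ∀ i, y i = 0 ↔ w i = 0)
    (hne : y ≠ w) : Acy {G | G ∈ Faces f ∧ G < w ∧ ∀ i, y i = w i → G i = w i} := by
  classical
  set C : Set E := ⋂ i, {v : E | y i = w i → sgv f v i = y i} with hCdef
  have hC : Convex ℝ C := by
    apply convex_iInter
    intro i
    by_cases h : y i = w i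
    · have : {v : E | y i = w i → sgv f v i = y i} = {v | sgv f v i = y i} := by
        ext v; simp [h]
      rw [this]; exact convex_eq f i _
    · have : {v : E | y i = w i → sgv f v i = y i} = Set.univ := by
        ext v; simp [h]
      rw [this]; exact convex_univ
  have hmem : ∀ G, G ∈ sgv f '' C ↔ G ∈ Faces f ∧ ∀ i, y i = w i → G i = y i := by
    intro G
    constructor
    · rintro ⟨v, hv, rfl⟩
      rw [hCdef] at hv
      simp only [Set.mem_iInter, Set.mem_ofPred_eq] at hv
      exact ⟨⟨v, rfl⟩, hv⟩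
    · rintro ⟨⟨v, rfl⟩, h⟩
      refine ⟨v, ?_, rfl⟩
      rw [hCdef]
      simp only [Set.mem_iInter, Set.mem_ofPred_eq]
      exact h
  have hyC : y ∈ sgv f '' C := (hmem y).2 ⟨hy, fun _ _ => rfl⟩
  have hwC : w ∈ sgv f '' C := (hmem w).2 ⟨hw, fun _ h => h.symm⟩
  have hFC : Acy (sgv f '' C) := by
    apply acy_convex f C hC
    obtain ⟨v, hv, -⟩ := hyC
    exact ⟨v, hv⟩
  have hflip : ∀ i, y i ≠ w i → ∀ a : SignType, a ≠ w i ↔ (a = 0 ∨ a = y i) := by
    intro i hi a
    have h1 := hz i
    revert hi h1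
    generalize y i = b
    generalize w i = c
    revert a b c
    decide
  obtain ⟨i0, hi0⟩ : ∃ i, y i ≠ w i := by
    by_contra h
    push Not at h
    exact hne (funext h)
  set P : Set (SV ι) := {G | G ∈ sgv f '' C ∧ G ≠ w} with hPdef
  have hP : Acy P := by
    have e : P = {G | G ∈ sgv f '' C ∧ (∀ i ∈ (∅ : Finset ι), G i = 0 ∨ G i = y i) ∧
        ∃ i ∈ Finset.univ.filter (fun i => y i ≠ w i), G i = 0 ∨ G i = y i} := by
      ext G
      simp only [hPdef, Set.mem_ofPred_eq, Finset.notMem_empty, false_imp_iff, implies_true,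
        true_and, Finset.mem_filter, Finset.mem_univ]
      constructor
      · rintro ⟨h1, h2⟩
        refine ⟨h1, ?_⟩
        obtain ⟨i, hi⟩ : ∃ i, G i ≠ w i := by
          by_contra h
          push Not at h
          exact h2 (funext h)
        have hyw : y i ≠ w i := by
          intro h
          exact hi ((((hmem G).1 h1).2 i h).trans h)
        exact ⟨i, hyw, (hflip i hyw _).1 hi⟩
      · rintro ⟨h1, i, h2, h3⟩
        refine ⟨h1, ?_⟩
        rintro rfl
        exact ((hflip i h2 _).2 h3) rfl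
    rw [e]
    exact acy_cover f C hC y hyC _ ⟨i0, by simp [hi0]⟩ ∅
  have hins : insert w P = sgv f '' C := by
    ext G
    simp only [hPdef, Set.mem_insert_iff, Set.mem_ofPred_eq]
    constructor
    · rintro (h | h)
      · rw [h]; exact hwC
      · exact h.1
    · intro h
      by_cases h' : G = w
      · exact Or.inl h'
      · exact Or.inr ⟨h, h'⟩
  have hl := acy_link (P := P) (p := w) (fun h => h.2 rfl) (by rw [hins]; exact hFC) hP (by
    intro x hx hlt
    apply hx.2
    apply le_antisymm _ hlt.le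
    intro i
    by_cases hwi : w i = 0
    · have hyi : y i = 0 := (hz i).2 hwi
      left
      rw [((hmem x).1 hx.1).2 i (hyi.trans hwi.symm)]
      exact hyi
    · right
      rcases hlt.le i with h | h
      · exact absurd h hwi
      · exact h.symm)
  have e : {G | G ∈ Faces f ∧ G < w ∧ ∀ i, y i = w i → G i = w i} = {x | x ∈ P ∧ x < w} := by
    ext G
    simp only [hPdef, Set.mem_ofPred_eq]
    constructor
    · rintro ⟨h1, h2, h3⟩
      exact ⟨⟨(hmem G).2 ⟨h1, fun i hi => (h3 i hi).trans hi.symm⟩, h2.ne⟩, h2⟩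
    · rintro ⟨⟨h1, -⟩, h2⟩
      exact ⟨((hmem G).1 h1).1, h2, fun i hi => (((hmem G).1 h1).2 i hi).trans hi⟩
  rw [e]
  exact hl

/-- B3 -/
theorem acy_visible (y z F : SV ι) (hy : y ∈ Faces f) (hz : z ∈ Faces f) (hy0 : ∀ i, y i ≠ 0)
    (hz0 : ∀ i, z i ≠ 0) (hF : F ∈ Faces f) (hFy : F ≤ y) (h : ∃ i, F i = 0 ∧ y i ≠ z i) :
    Acy {G | G ∈ Faces f ∧ F ≤ G ∧ G < y ∧ ∀ i, G i = 0 → y i ≠ z i} := by
  have h1 := acy_below f (comp F z) y (comp_mem f hF hz) hy (by
    intro i
    constructor
    · intro h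
      exfalso
      by_cases h' : F i = 0
      · rw [comp_eq h'] at h; exact hz0 i h
      · rw [comp_ne h'] at h; exact h' h
    · intro h
      exact absurd h (hy0 i)) (by
    obtain ⟨i, hi, hyz⟩ := h
    intro he
    apply hyz
    rw [← he, comp_eq hi])
  have e : {G | G ∈ Faces f ∧ F ≤ G ∧ G < y ∧ ∀ i, G i = 0 → y i ≠ z i} =
      {G | G ∈ Faces f ∧ G < y ∧ ∀ i, comp F z i = y i → G i = y i} := by
    ext G
    simp only [Set.mem_ofPred_eq]
    constructor
    · rintro ⟨h1, h2, h3, h4⟩
      refine ⟨h1, h3, ?_⟩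
      intro i hi
      by_cases h' : F i = 0
      · rw [comp_eq h'] at hi
        rcases h3.le i with h5 | h5
        · exact absurd hi.symm (h4 i h5)
        · exact h5
      · rw [comp_ne h'] at hi
        rcases h2 i with h5 | h5
        · exact absurd h5 h'
        · rw [← h5]; exact hi
    · rintro ⟨h1, h2, h3⟩
      refine ⟨h1, ?_, h2, ?_⟩
      · intro i
        by_cases h' : F i = 0
        · exact Or.inl h'
        · right
          have h4 : F i = y i := (hFy i).resolve_left h'
          rw [h3 i (by rw [comp_ne h']; exact h4)]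
          exact h4
      · intro i hi hyz
        have h4 : comp F z i = y i := by
          by_cases h' : F i = 0
          · rw [comp_eq h']; exact hyz.symm
          · rw [comp_ne h']; exact (hFy i).resolve_left h'
        have h5 := h3 i h4
        rw [hi] at h5
        exact hy0 i h5.symm
  rw [e]
  exact h1

omit [Fintype ι] in
/-- A face below `K` which vanishes at a form where the facet `K'` vanishes but `K` does not, is
below `K'`. -/
theorem facet_le {K' K G : SV ι} (hcm : comp K' G ∈ Faces f) (h2 : K' < K)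
    (h3 : ∀ τ ∈ Faces f, τ < K → ¬ K' < τ) (hGK : G ≤ K) (i : ι) (hi : K' i = 0) (hKi : K i ≠ 0)
    (hGi : G i = 0) : G ≤ K' := by
  have hle : comp K' G ≤ K := by
    intro j
    by_cases h' : K' j = 0
    · rw [comp_eq h']; exact hGK j
    · rw [comp_ne h']; exact h2.le j
  have hlt : comp K' G < K := by
    apply lt_of_le_of_ne hle
    intro h
    apply hKi
    rw [← h, comp_eq hi]
    exact hGi
  have hge : K' ≤ comp K' G := by
    intro j
    by_cases h' : K' j = 0
    · exact Or.inl h'
    · right; rw [comp_ne h']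
  have heq : K' = comp K' G := by
    by_contra hne
    exact h3 _ hcm hlt (lt_of_le_of_ne hge hne)
  intro j
  by_cases h' : K' j = 0
  · left
    have : comp K' G j = G j := comp_eq h'
    rw [← this, ← heq]
    exact h'
  · rcases hGK j with h | h
    · exact Or.inl h
    · right
      rw [h]
      exact ((h2.le j).resolve_left h').symm

omit [Fintype ι] in
theorem exists_ne_of_lt {σ τ : SV ι} (h : σ < τ) : ∃ i, σ i = 0 ∧ τ i ≠ 0 := by
  by_contra hc
  push Not at hc
  apply h.ne
  funext i
  rcases h.le i with h1 | h1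
  · rw [h1, hc i h1]
  · exact h1

/-- B4: `K'` is a facet of `K`, `σ < K'` -/
theorem acy_punctured (σ K' K : SV ι) (hσ : σ ∈ Faces f) (hK' : K' ∈ Faces f) (hK : K ∈ Faces f)
    (h1 : σ < K') (h2 : K' < K) (h3 : ∀ τ ∈ Faces f, τ < K → ¬ K' < τ) :
    Acy {τ | τ ∈ Faces f ∧ σ < τ ∧ τ < K ∧ τ ≠ K'} := by
  classical
  have hQ : ∀ s ∈ Faces f, s < K' → Acy {t | t ∈ Faces f ∧ s < t ∧ t < K ∧ ¬ t ≤ K'} := by
    intro s hs hsK'
    have hsK : s ≤ K := hsK'.le.trans h2.le
    set u : SV ι := comp s (opp (comp K' (opp K))) with hu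
    have u1 : ∀ i, s i ≠ 0 → u i = K i := by
      intro i hi
      rw [hu, comp_ne hi]
      exact (hsK i).resolve_left hi
    have u2 : ∀ i, s i = 0 → K' i = 0 → u i = K i := by
      intro i hi hi'
      rw [hu, comp_eq hi]
      show - (comp K' (opp K) i) = K i
      rw [comp_eq hi']
      show - - K i = K i
      exact neg_neg _
    have u3 : ∀ i, s i = 0 → K' i ≠ 0 → u i = - K i := by
      intro i hi hi'
      rw [hu, comp_eq hi]
      show - (comp K' (opp K) i) = - K i
      rw [comp_ne hi', (h2.le i).resolve_left hi']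
    have hb := acy_below f u K (comp_mem f hs (opp_mem f (comp_mem f hK' (opp_mem f hK)))) hK
      (by
        intro i
        by_cases hi : s i = 0
        · by_cases hi' : K' i = 0
          · rw [u2 i hi hi']
          · rw [u3 i hi hi']
            generalize K i = a
            revert a; decide
        · rw [u1 i hi])
      (by
        intro he
        obtain ⟨i, hi, hi'⟩ := exists_ne_of_lt hsK'
        have h4 := u3 i hi hi'
        have h5 : K i ≠ 0 := by
          rw [← (h2.le i).resolve_left hi']; exact hi'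
        rw [he] at h4
        revert h4 h5
        generalize K i = a
        revert a; decide)
    have e : {t | t ∈ Faces f ∧ s < t ∧ t < K ∧ ¬ t ≤ K'} =
        {G | G ∈ Faces f ∧ G < K ∧ ∀ i, u i = K i → G i = K i} := by
      ext G
      simp only [Set.mem_ofPred_eq]
      constructor
      · rintro ⟨g1, g2, g3, g4⟩
        refine ⟨g1, g3, ?_⟩
        intro i hi
        by_cases hsi : s i = 0
        · by_cases hi' : K' i = 0
          · by_contra hne
            have hG0 : G i = 0 := (g3.le i).resolve_right hne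
            have hK0 : K i ≠ 0 := by
              intro h
              exact hne (hG0.trans h.symm)
            exact g4 (facet_le f (comp_mem f hK' g1) h2 h3 g3.le i hi' hK0 hG0)
          · exfalso
            have h4 := u3 i hsi hi'
            have h5 : K i ≠ 0 := by
              rw [← (h2.le i).resolve_left hi']; exact hi'
            rw [hi] at h4
            revert h4 h5
            generalize K i = a
            revert a; decide
        · rw [← (g2.le i).resolve_left hsi]
          exact (hsK i).resolve_left hsi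
      · rintro ⟨g1, g2, g3⟩
        have hle : s ≤ G := by
          intro i
          by_cases hsi : s i = 0
          · exact Or.inl hsi
          · right
            rw [g3 i (u1 i hsi)]
            exact (hsK i).resolve_left hsi
        obtain ⟨i, hi, hi'⟩ := exists_ne_of_lt h2
        have hsi : s i = 0 := by
          rcases hsK'.le i with h | h
          · exact h
          · rw [h]; exact hi
        have hGi : G i = K i := g3 i (u2 i hsi hi)
        have hGi0 : G i ≠ 0 := by rw [hGi]; exact hi'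
        refine ⟨g1, lt_of_le_of_ne hle ?_, g2, ?_⟩
        · rintro rfl
          exact hGi0 hsi
        · intro hh
          rcases hh i with h | h
          · exact hGi0 h
          · rw [hi] at h; exact hGi0 h
    rw [e]
    exact hb
  set A : Set (SV ι) := {t | t ∈ Faces f ∧ σ < t ∧ t < K ∧ ¬ t ≤ K'} with hA
  have hfin : {s | s ∈ Faces f ∧ σ < s ∧ s < K'}.Finite := Set.toFinite _
  have key := add_low A (hQ σ hσ h1) hfin.toFinset ?_ ?_
  · have e : {τ | τ ∈ Faces f ∧ σ < τ ∧ τ < K ∧ τ ≠ K'} = A ∪ (hfin.toFinset : Set (SV ι)) := by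
      rw [hfin.coe_toFinset]
      ext t
      simp only [hA, Set.mem_ofPred_eq, Set.mem_union]
      constructor
      · rintro ⟨t1, t2, t3, t4⟩
        by_cases h : t ≤ K'
        · exact Or.inr ⟨t1, t2, lt_of_le_of_ne h t4⟩
        · exact Or.inl ⟨t1, t2, t3, h⟩
      · rintro (⟨t1, t2, t3, t4⟩ | ⟨t1, t2, t3⟩)
        · exact ⟨t1, t2, t3, fun h => t4 h.le⟩
        · exact ⟨t1, t2, t3.trans h2, t3.ne⟩
    rw [e]
    exact key
  · intro s hs hsA
    rw [Set.Finite.mem_toFinset] at hs
    exact hsA.2.2.2 hs.2.2.le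
  · intro s hs
    rw [Set.Finite.mem_toFinset] at hs
    have e : {x | x ∈ A ∧ s < x} = {t | t ∈ Faces f ∧ s < t ∧ t < K ∧ ¬ t ≤ K'} := by
      ext t
      simp only [hA, Set.mem_ofPred_eq]
      constructor
      · rintro ⟨⟨t1, t2, t3, t4⟩, t5⟩
        exact ⟨t1, t5, t3, t4⟩
      · rintro ⟨t1, t5, t3, t4⟩
        exact ⟨⟨t1, hs.2.1.trans t5, t3, t4⟩, t5⟩
    rw [e]
    exact hQ s hs.1 hs.2.2

/-! ## B5 -/

omit [Fintype ι] in
theorem mem_Zs {σ : SV ι} {v : E} : v ∈ Zs f σ ↔ ∀ i, σ i = 0 → f i v = 0 := by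
  simp [Zs, ZJ]

theorem finrank_inf_ker [FiniteDimensional ℝ E] (S : Submodule ℝ E) (g : E →ₗ[ℝ] ℝ) (p : E)
    (hp : p ∈ S) (hg : g p ≠ 0) :
    Module.finrank ℝ (S ⊓ LinearMap.ker g : Submodule ℝ E) + 1 = Module.finrank ℝ S := by
  have h0 : g.domRestrict S ≠ 0 := by
    intro h
    apply hg
    have := LinearMap.congr_fun h ⟨p, hp⟩
    simpa using this
  have h1 := Module.Dual.finrank_ker_add_one_of_ne_zero h0
  have h2 : (LinearMap.ker (g.domRestrict S)).map S.subtype = S ⊓ LinearMap.ker g := by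
    ext v
    simp only [Submodule.mem_map, LinearMap.mem_ker, LinearMap.domRestrict_apply,
      Submodule.mem_inf]
    constructor
    · rintro ⟨w, hw, rfl⟩
      exact ⟨w.2, hw⟩
    · rintro ⟨hv, hgv⟩
      exact ⟨⟨v, hv⟩, hgv, rfl⟩
  rw [← h2, Submodule.finrank_map_subtype_eq]
  exact h1

theorem facet_aux (K' K : SV ι) (hK' : K' ∈ Faces f) (h2 : K' < K)
    (h3 : ∀ τ ∈ Faces f, τ < K → ¬ K' < τ) (i : ι) (hi : K' i = 0) (hKi : K i ≠ 0)
    (p : E) (hp : sgv f p = K) (v : E) (hv : v ∈ Zs f K) (hvi : f i v = 0) (j : ι)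
    (hj : K' j = 0) (hne : f j p * f j v < 0) : False := by
  classical
  have hKz : ∀ j, K j = 0 ↔ f j p = 0 := by
    intro j
    rw [← hp]
    exact sign_eq_zero_iff
  set J : Finset ι := Finset.univ.filter (fun j => K' j = 0 ∧ f j p * f j v < 0) with hJ
  obtain ⟨m, hmJ, hmin⟩ := J.exists_min_image (fun j => -(f j p) / f j v)
    ⟨j, by rw [hJ]; simp [hj, hne]⟩
  rw [hJ, Finset.mem_filter] at hmJ
  obtain ⟨-, hm1, hm2⟩ := hmJ
  set t : ℝ := -(f m p) / f m v with ht
  have hmv : f m v ≠ 0 := by
    intro h; rw [h, mul_zero] at hm2; exact lt_irrefl _ hm2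
  have hmp : f m p ≠ 0 := by
    intro h; rw [h, zero_mul] at hm2; exact lt_irrefl _ hm2
  have hquot : ∀ a b : ℝ, a * b < 0 → 0 < -a / b := by
    intro a b hab
    rcases mul_neg_iff.1 hab with ⟨h1, h2⟩ | ⟨h1, h2⟩
    · exact div_pos_of_neg_of_neg (by linarith) h2
    · exact div_pos (by linarith) h2
  have htpos : 0 < t := hquot _ _ hm2
  set r : E := p + t • v with hr
  have hfr : ∀ k, f k r = f k p + t * f k v := by
    intro k
    rw [hr, map_add, map_smul, smul_eq_mul]
  have hsg : ∀ k, K' k = 0 → sgv f r k = 0 ∨ sgv f r k = K k := by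
    intro k hk
    rcases lt_trichotomy (f k p) 0 with h | h | h
    · have hKk : K k = -1 := by rw [← hp]; exact sign_neg h
      rw [hKk]
      have hle : f k r ≤ 0 := by
        rw [hfr]
        rcases le_or_gt (f k v) 0 with h' | h'
        · nlinarith
        · have hb := hmin k (by rw [hJ, Finset.mem_filter]; exact ⟨Finset.mem_univ _, hk, mul_neg_of_neg_of_pos h h'⟩)
          rw [le_div_iff₀ h'] at hb
          linarith
      rcases hle.eq_or_lt with h' | h'
      · exact Or.inl (sign_eq_zero_iff.2 h')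
      · exact Or.inr (sign_neg h')
    · left
      have hv0 : f k v = 0 := (mem_Zs f).1 hv k ((hKz k).2 h)
      apply sign_eq_zero_iff.2
      rw [hfr, h, hv0]; simp
    · have hKk : K k = 1 := by rw [← hp]; exact sign_pos h
      rw [hKk]
      have hle : 0 ≤ f k r := by
        rw [hfr]
        rcases le_or_gt 0 (f k v) with h' | h'
        · have := mul_nonneg htpos.le h'
          linarith
        · have hb := hmin k (by rw [hJ, Finset.mem_filter]; exact ⟨Finset.mem_univ _, hk, mul_neg_of_pos_of_neg h h'⟩)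
          rw [le_div_iff_of_neg h'] at hb
          linarith
      rcases hle.eq_or_lt with h' | h'
      · exact Or.inl (sign_eq_zero_iff.2 h'.symm)
      · exact Or.inr (sign_pos h')
  have hle : comp K' (sgv f r) ≤ K := by
    intro k
    by_cases hk : K' k = 0
    · rw [comp_eq hk]; exact hsg k hk
    · rw [comp_ne hk]; exact h2.le k
  have hKm : K m ≠ 0 := fun h => hmp ((hKz m).1 h)
  have hlt : comp K' (sgv f r) < K := by
    apply lt_of_le_of_ne hle
    intro h
    apply hKm
    rw [← h, comp_eq hm1]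
    apply sign_eq_zero_iff.2
    rw [hfr, ht]
    field_simp
    ring
  have hge : K' < comp K' (sgv f r) := by
    apply lt_of_le_of_ne
    · intro k
      by_cases hk : K' k = 0
      · exact Or.inl hk
      · right; rw [comp_ne hk]
    · intro h
      apply hKi
      have h4 : comp K' (sgv f r) i = sgv f r i := comp_eq hi
      have h5 : sgv f r i = K i := by
        rw [← hp]
        show SignType.sign (f i r) = SignType.sign (f i p)
        rw [hfr, hvi]; simp
      rw [← h5, ← h4, ← h]
      exact hi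
  exact h3 _ (comp_mem f hK' ⟨r, rfl⟩) hlt hge

/-- B5: a facet has codimension one -/
theorem finrank_facet [FiniteDimensional ℝ E] (K' K : SV ι) (hK' : K' ∈ Faces f) (hK : K ∈ Faces f)
    (h2 : K' < K) (h3 : ∀ τ ∈ Faces f, τ < K → ¬ K' < τ) :
    Module.finrank ℝ (Zs f K') + 1 = Module.finrank ℝ (Zs f K) := by
  obtain ⟨i, hi, hKi⟩ := exists_ne_of_lt h2
  obtain ⟨p, hp⟩ := hK
  have hKz : ∀ j, K j = 0 ↔ f j p = 0 := by
    intro j
    rw [← hp]
    exact sign_eq_zero_iff
  have hZ : Zs f K' = Zs f K ⊓ LinearMap.ker (f i) := by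
    ext v
    rw [Submodule.mem_inf, mem_Zs, mem_Zs, LinearMap.mem_ker]
    constructor
    · intro h
      refine ⟨fun j hj => h j ?_, h i hi⟩
      rcases h2.le j with h' | h'
      · exact h'
      · rw [h']; exact hj
    · rintro ⟨hv, hvi⟩ j hj
      by_contra hne
      have hpj : f j p ≠ 0 := fun h => hne (hv j ((hKz j).2 h))
      have hv' : v ∈ Zs f K := (mem_Zs f).2 hv
      rcases lt_or_gt_of_ne (mul_ne_zero hpj hne) with h | h
      · exact facet_aux f K' K hK' h2 h3 i hi hKi p hp v hv' hvi j hj h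
      · exact facet_aux f K' K hK' h2 h3 i hi hKi p hp (-v) ((Zs f K).neg_mem hv')
          (by rw [map_neg, hvi, neg_zero]) j hj (by rw [map_neg]; nlinarith)
  rw [hZ]
  apply finrank_inf_ker _ _ p
  · rw [mem_Zs]
    intro j hj
    exact (hKz j).1 hj
  · intro h
    exact hKi ((hKz i).2 h)

end

end Pool.Agent.V8H40.MHA
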